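import Pool.Agent.UL5.Stmts
import Pool.Agent.Helper23_UL3.PLN
import Pool.Agent.Helper77_UL3.PAA

set_option autoImplicit false

namespace Pool.Agent.UL5.H77

open MeasureTheory Set Pool.Agent.UL3 Pool.Agent.UL4
open Pool.Agent.UL3.H23 (Ph ph_apply ph_det He he_apply)

/-! ### Algebra of `cr` -/

theorem cr_anti (p q : ℝ × ℝ) : cr q p = - cr p q := by
  simp only [cr]; ring

theorem cr_self (p : ℝ × ℝ) : cr p p = 0 := by
  simp only [cr]; ring

theorem cr_add_r (a p q : ℝ × ℝ) : cr a (p + q) = cr a p + cr a q := by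
  simp only [cr, Prod.fst_add, Prod.snd_add]; ring

theorem cr_sub_r (a p q : ℝ × ℝ) : cr a (p - q) = cr a p - cr a q := by
  simp only [cr, Prod.fst_sub, Prod.snd_sub]; ring

theorem cr_smul_r (a p : ℝ × ℝ) (s : ℝ) : cr a (s • p) = s * cr a p := by
  simp only [cr, Prod.smul_fst, Prod.smul_snd, smul_eq_mul]; ring

theorem cr_add_l (p q a : ℝ × ℝ) : cr (p + q) a = cr p a + cr q a := by
  simp only [cr, Prod.fst_add, Prod.snd_add]; ring

theorem cr_sub_l (p q a : ℝ × ℝ) : cr (p - q) a = cr p a - cr q a := by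
  simp only [cr, Prod.fst_sub, Prod.snd_sub]; ring

theorem cr_smul_l (p a : ℝ × ℝ) (s : ℝ) : cr (s • p) a = s * cr p a := by
  simp only [cr, Prod.smul_fst, Prod.smul_snd, smul_eq_mul]; ring

theorem cr_neg_l (p a : ℝ × ℝ) : cr (-p) a = - cr p a := by
  simp only [cr, Prod.fst_neg, Prod.snd_neg]; ring

theorem cr_neg_r (p a : ℝ × ℝ) : cr p (-a) = - cr p a := by
  simp only [cr, Prod.fst_neg, Prod.snd_neg]; ring

theorem coord (p q P : ℝ × ℝ) (h : 0 < cr p q) :
    P = (cr P q / cr p q) • p + (cr p P / cr p q) • q := by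
  have h' : cr p q ≠ 0 := h.ne'
  have e : cr p q • P = cr P q • p + cr p P • q := by
    refine Prod.ext ?_ ?_
    · simp only [cr, Prod.smul_fst, Prod.fst_add, smul_eq_mul]; ring
    · simp only [cr, Prod.smul_snd, Prod.snd_add, smul_eq_mul]; ring
  have e3 : (cr p q)⁻¹ • (cr P q • p + cr p P • q) = P := by
    rw [← e, smul_smul, inv_mul_cancel₀ h', one_smul]
  rw [smul_add, smul_smul, smul_smul] at e3
  rw [div_eq_inv_mul, div_eq_inv_mul]
  exact e3.symm

/-! ### Interior points -/

theorem comb_int {C : Set (ℝ × ℝ)} (h : PB C) {y z : ℝ × ℝ} (hy : y ∈ C) (hz : z ∈ C) {α β : ℝ}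
    (hα : 0 ≤ α) (hβ : 0 ≤ β) (hαβ : α + β < 1) : α • y + β • z ∈ interior C := by
  have h0 : (0 : ℝ × ℝ) ∈ interior C := h.zero_mem
  have h1α : 0 < 1 - α := by linarith
  have h1 := h.cvx.combo_interior_self_mem_interior h0 hz (a := 1 - β / (1 - α))
    (b := β / (1 - α)) (by
      rw [sub_pos, div_lt_one h1α]; linarith) (div_nonneg hβ h1α.le) (by ring)
  rw [smul_zero, zero_add] at h1
  have h2 := h.cvx.combo_interior_self_mem_interior h1 hy (a := 1 - α) (b := α) h1α hα (by ring)
  rw [smul_smul, mul_div_cancel₀ _ h1α.ne', add_comm] at h2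
  exact h2

theorem neg_notint {C : Set (ℝ × ℝ)} (h : PB C) {x : ℝ × ℝ} (hx : x ∉ interior C) :
    -x ∉ interior C := by
  intro hn
  have := Pool.Agent.UL3.H77.neg_int h hn
  rw [neg_neg] at this
  exact hx this

/-- the extreme point over an edge is in the cone of the edge -/
theorem ext_pt (hH : HmxStmt) {C : Set (ℝ × ℝ)} (h : PB C) {p q : ℝ × ℝ} (hp : p ∈ C) (hq : q ∈ C)
    (hqp : q - p ∈ C) (hpi : p ∉ interior C) (hqi : q ∉ interior C) (hD : 0 < cr p q) :
    ∃ P ∈ C, cr (p - q) P = Hm C (p - q) ∧ 0 < cr p P ∧ 0 < cr P q := by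
  obtain ⟨hle, hex, -, -, -⟩ := hH C h
  obtain ⟨P, hP, hPH⟩ := hex (p - q)
  have hpq : p - q ∈ C := by
    have := h.sym _ hqp
    rwa [neg_sub] at this
  set s := cr P q / cr p q with hs
  set t := cr p P / cr p q with ht
  have hPe : P = s • p + t • q := coord p q P hD
  have hcP : cr (p - q) P = (s + t) * cr p q := by
    have e1 : s * cr p q = cr P q := div_mul_cancel₀ _ hD.ne'
    have e2 : t * cr p q = cr p P := div_mul_cancel₀ _ hD.ne'
    rw [add_mul, e1, e2, cr_sub_l, cr_anti q P]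
    ring
  have hDH : cr p q ≤ Hm C (p - q) := by
    have h1 := (le_abs_self _).trans (hle (p - q) p hp)
    rw [cr_sub_l, cr_self, cr_anti p q] at h1
    linarith
  by_cases hst : s + t ≤ 1
  · -- no cap
    have hHm : Hm C (p - q) = cr p q := by
      refine le_antisymm ?_ hDH
      rw [← hPH, hcP]
      nlinarith
    refine ⟨(1 / 2 : ℝ) • p + (1 / 2 : ℝ) • q, h.cvx hp hq (by norm_num) (by norm_num)
      (by norm_num), ?_, ?_, ?_⟩
    · rw [hHm, cr_add_r, cr_smul_r, cr_smul_r, cr_sub_l, cr_sub_l, cr_self, cr_self, cr_anti p q]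
      ring
    · rw [cr_add_r, cr_smul_r, cr_smul_r, cr_self]
      linarith
    · rw [cr_add_l, cr_smul_l, cr_smul_l, cr_self]
      linarith
  · push Not at hst
    have ht1 : t ≤ 1 := by
      by_contra ht1
      push Not at ht1
      apply hqi
      by_cases hs0 : 0 ≤ s
      · have hst0 : 0 < s + t := by linarith
        have h1 := comb_int h hP hqp (α := 1 / (s + t)) (β := s / (s + t)) (by positivity)
          (by positivity) (by rw [← add_div, div_lt_one hst0]; linarith)
        have e : (1 / (s + t)) • P + (s / (s + t)) • (q - p) = q := by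
          rw [hPe]
          refine Prod.ext ?_ ?_
          · simp only [Prod.smul_fst, Prod.fst_add, Prod.fst_sub, smul_eq_mul]
            field_simp; ring
          · simp only [Prod.smul_snd, Prod.snd_add, Prod.snd_sub, smul_eq_mul]
            field_simp; ring
        rwa [e] at h1
      · push Not at hs0
        have ht0 : 0 < t := by linarith
        have h1 := comb_int h hP hp (α := 1 / t) (β := -s / t) (by positivity)
          (div_nonneg (by linarith) ht0.le) (by rw [← add_div, div_lt_one ht0]; linarith)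
        have e : (1 / t) • P + (-s / t) • p = q := by
          rw [hPe]
          refine Prod.ext ?_ ?_
          · simp only [Prod.smul_fst, Prod.fst_add, smul_eq_mul]
            field_simp; ring
          · simp only [Prod.smul_snd, Prod.snd_add, smul_eq_mul]
            field_simp; ring
        rwa [e] at h1
    have hs1 : s ≤ 1 := by
      by_contra hs1
      push Not at hs1
      apply hpi
      by_cases ht0 : 0 ≤ t
      · have hst0 : 0 < s + t := by linarith
        have h1 := comb_int h hP hpq (α := 1 / (s + t)) (β := t / (s + t)) (by positivity)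
          (by positivity) (by rw [← add_div, div_lt_one hst0]; linarith)
        have e : (1 / (s + t)) • P + (t / (s + t)) • (p - q) = p := by
          rw [hPe]
          refine Prod.ext ?_ ?_
          · simp only [Prod.smul_fst, Prod.fst_add, Prod.fst_sub, smul_eq_mul]
            field_simp; ring
          · simp only [Prod.smul_snd, Prod.snd_add, Prod.snd_sub, smul_eq_mul]
            field_simp; ring
        rwa [e] at h1
      · push Not at ht0
        have hs0 : 0 < s := by linarith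
        have h1 := comb_int h hP hq (α := 1 / s) (β := -t / s) (by positivity)
          (div_nonneg (by linarith) hs0.le) (by rw [← add_div, div_lt_one hs0]; linarith)
        have e : (1 / s) • P + (-t / s) • q = p := by
          rw [hPe]
          refine Prod.ext ?_ ?_
          · simp only [Prod.smul_fst, Prod.fst_add, smul_eq_mul]
            field_simp; ring
          · simp only [Prod.smul_snd, Prod.snd_add, smul_eq_mul]
            field_simp; ring
        rwa [e] at h1
    have hs0 : 0 < s := by linarith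
    have ht0 : 0 < t := by linarith
    refine ⟨P, hP, hPH, ?_, ?_⟩
    · have e2 : t * cr p q = cr p P := div_mul_cancel₀ _ hD.ne'
      rw [← e2]; positivity
    · have e1 : s * cr p q = cr P q := div_mul_cancel₀ _ hD.ne'
      rw [← e1]; positivity

/-! ### Triangles -/

/-- the standard triangle -/
def St : Set (ℝ × ℝ) := {z | 0 < z.1 ∧ 0 < z.2 ∧ z.1 + z.2 < 1}

theorem st_open : IsOpen St := by
  have h1 : IsOpen {z : ℝ × ℝ | 0 < z.1} := isOpen_lt continuous_const continuous_fst
  have h2 : IsOpen {z : ℝ × ℝ | 0 < z.2} := isOpen_lt continuous_const continuous_snd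
  have h3 : IsOpen {z : ℝ × ℝ | z.1 + z.2 < 1} :=
    isOpen_lt (continuous_fst.add continuous_snd) continuous_const
  exact h1.inter (h2.inter h3)

theorem st_vol : (volume : Measure (ℝ × ℝ)) St = ENNReal.ofReal (1 / 2) := by
  have e : St = regionBetween (fun _ : ℝ => (0 : ℝ)) (fun x => 1 - x) (Ioo 0 1) := by
    ext z
    simp only [St, regionBetween, mem_Ioo]
    constructor
    · rintro ⟨h1, h2, h3⟩
      exact ⟨⟨h1, by linarith⟩, h2, by linarith⟩
    · rintro ⟨⟨h1, -⟩, h2, h3⟩
      exact ⟨h1, h2, by linarith⟩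
  have hi : ∀ f g : ℝ → ℝ, f = (fun _ => 0) → g = (fun x => 1 - x) →
      ∫ y in Ioo (0 : ℝ) 1, (g - f) y = 1 / 2 := by
    rintro f g rfl rfl
    rw [← integral_Ioc_eq_integral_Ioo, ← intervalIntegral.integral_of_le zero_le_one]
    simp only [Pi.sub_apply, sub_zero]
    rw [intervalIntegral.integral_sub (by simp) (by simp)]
    simp
    norm_num
  have hg : IntegrableOn (fun x : ℝ => 1 - x) (Ioo 0 1) volume :=
    ((continuous_const.sub continuous_id).integrableOn_Icc (a := (0 : ℝ)) (b := 1)).mono_set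
      Ioo_subset_Icc_self
  have hf : IntegrableOn (fun _ : ℝ => (0 : ℝ)) (Ioo 0 1) volume := integrableOn_zero
  rw [e, Measure.volume_eq_prod, volume_regionBetween_eq_integral hf hg measurableSet_Ioo
    (fun x hx => by
      show (0 : ℝ) ≤ 1 - x
      linarith [hx.2]), hi _ _ rfl rfl]

/-- the open triangle `0`, `p`, `q` -/
noncomputable def Tri (p q : ℝ × ℝ) : Set (ℝ × ℝ) := Ph p q '' St

theorem ph_comb (p q z : ℝ × ℝ) : Ph p q z = z.1 • p + z.2 • q := by
  rw [ph_apply]
  refine Prod.ext ?_ ?_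
  · simp only [Prod.fst_add, Prod.smul_fst, smul_eq_mul]; ring
  · simp only [Prod.snd_add, Prod.smul_snd, smul_eq_mul]; ring

theorem tri_meas {p q : ℝ × ℝ} (h : 0 < cr p q) : MeasurableSet (Tri p q) := by
  have e : Tri p q = He p q h '' St := by
    unfold Tri
    exact Set.image_congr fun z _ => (he_apply p q h z).symm
  rw [e]
  exact ((He p q h).isOpenMap _ st_open).measurableSet

theorem tri_vol {p q : ℝ × ℝ} (h : 0 < cr p q) :
    (volume : Measure (ℝ × ℝ)) (Tri p q) = ENNReal.ofReal (cr p q / 2) := by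
  unfold Tri
  rw [Measure.addHaar_image_linearMap, ph_det, st_vol, abs_of_pos h, ← ENNReal.ofReal_mul h.le]
  congr 1
  ring

theorem tri_real {p q : ℝ × ℝ} (h : 0 < cr p q) :
    (volume : Measure (ℝ × ℝ)).real (Tri p q) = cr p q / 2 := by
  rw [Measure.real, tri_vol h, ENNReal.toReal_ofReal (by positivity)]

theorem tri_sub {C : Set (ℝ × ℝ)} (h : PB C) {p q : ℝ × ℝ} (hp : p ∈ C) (hq : q ∈ C) :
    Tri p q ⊆ C := by
  rintro x ⟨z, ⟨h1, h2, h3⟩, rfl⟩
  rw [ph_comb]
  exact interior_subset (comb_int h hp hq h1.le h2.le h3)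

theorem tri_cr {p q x : ℝ × ℝ} (h : 0 < cr p q) (hx : x ∈ Tri p q) : 0 < cr p x ∧ 0 < cr x q := by
  obtain ⟨z, ⟨h1, h2, h3⟩, rfl⟩ := hx
  rw [ph_comb]
  constructor
  · rw [cr_add_r, cr_smul_r, cr_smul_r, cr_self]
    have := mul_pos h2 h
    linarith
  · rw [cr_add_l, cr_smul_l, cr_smul_l, cr_self]
    have := mul_pos h1 h
    linarith

/-- the two triangles over an edge -/
theorem edge {C : Set (ℝ × ℝ)} (h : PB C) {p q P : ℝ × ℝ} (hp : p ∈ C) (hq : q ∈ C) (hP : P ∈ C)
    (hD : 0 < cr p q) (h1 : 0 < cr p P) (h2 : 0 < cr P q) :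
    ∃ E : Set (ℝ × ℝ), MeasurableSet E ∧ E ⊆ C ∧ (∀ x ∈ E, 0 < cr p x ∧ 0 < cr x q) ∧
      (volume : Measure (ℝ × ℝ)).real E = cr (p - q) P / 2 := by
  have hfin : ∀ p q : ℝ × ℝ, 0 < cr p q → (volume : Measure (ℝ × ℝ)) (Tri p q) ≠ ⊤ := by
    intro p q h
    rw [tri_vol h]
    exact ENNReal.ofReal_ne_top
  refine ⟨Tri p P ∪ Tri P q, (tri_meas h1).union (tri_meas h2),
    union_subset (tri_sub h hp hP) (tri_sub h hP hq), ?_, ?_⟩
  · rintro x (hx | hx)
    · obtain ⟨a1, a2⟩ := tri_cr h1 hx
      refine ⟨a1, ?_⟩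
      obtain ⟨z, ⟨b1, b2, b3⟩, rfl⟩ := hx
      rw [ph_comb, cr_add_l, cr_smul_l, cr_smul_l]
      have := mul_pos b1 hD
      have := mul_pos b2 h2
      linarith
    · obtain ⟨a1, a2⟩ := tri_cr h2 hx
      refine ⟨?_, a2⟩
      obtain ⟨z, ⟨b1, b2, b3⟩, rfl⟩ := hx
      rw [ph_comb, cr_add_r, cr_smul_r, cr_smul_r]
      have := mul_pos b1 h1
      have := mul_pos b2 hD
      linarith
  · rw [measureReal_union ?_ (tri_meas h2) (hfin _ _ h1) (hfin _ _ h2), tri_real h1, tri_real h2,
      cr_sub_l, cr_anti P q]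
    · ring
    · rw [Set.disjoint_left]
      intro x hx hx'
      have a1 := (tri_cr h1 hx).2
      have a2 := (tri_cr h2 hx').1
      rw [cr_anti x P] at a2
      linarith

theorem cap (hH : HmxStmt) : CapStmt := by
  intro C a b h ha hb hba hai hbi hbai hD
  have hHm : ∀ u, Hm C (-u) = Hm C u := by
    obtain ⟨hle, hex, -, -, -⟩ := hH C h
    have key : ∀ u, Hm C (-u) ≤ Hm C u := by
      intro u
      obtain ⟨w, hw, hw2⟩ := hex (-u)
      rw [← hw2, cr_neg_l]
      exact (neg_le_abs _).trans (hle u w hw)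
    intro u
    refine le_antisymm (key u) ?_
    have := key (-u)
    rwa [neg_neg] at this
  have hfinC : (volume : Measure (ℝ × ℝ)) C ≠ ⊤ := h.cpt.measure_lt_top.ne
  -- the three edges
  have hD2 : 0 < cr b (b - a) := by
    rw [cr_sub_r, cr_self, cr_anti a b]; linarith
  have hD3 : 0 < cr (b - a) (-a) := by
    rw [cr_neg_r, cr_sub_l, cr_self, cr_anti a b]; linarith
  obtain ⟨P1, hP1, e1, f1, g1⟩ := ext_pt hH h ha hb hba hai hbi hD
  obtain ⟨P2, hP2, e2, f2, g2⟩ := ext_pt hH h hb hba (by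
    have := h.sym a ha
    have e : b - a - b = -a := by abel
    rwa [e]) hbi hbai hD2
  obtain ⟨P3, hP3, e3, f3, g3⟩ := ext_pt hH h hba (h.sym a ha) (by
    have := h.sym b hb
    have e : -a - (b - a) = -b := by abel
    rwa [e]) hbai (neg_notint h hai) hD3
  obtain ⟨E1, m1, s1, c1, v1⟩ := edge h ha hb hP1 hD f1 g1
  obtain ⟨E2, m2, s2, c2, v2⟩ := edge h hb hba hP2 hD2 f2 g2
  obtain ⟨E3, m3, s3, c3, v3⟩ := edge h hba (h.sym a ha) hP3 hD3 f3 g3
  rw [e1] at v1
  rw [e2] at v2
  rw [e3] at v3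
  have r1 : Hm C (a - b) = Hm C (b - a) := by
    rw [← hHm (b - a), neg_sub]
  have r2 : b - (b - a) = a := by abel
  have r3 : b - a - -a = b := by abel
  rw [r1] at v1
  rw [r2] at v2
  rw [r3] at v3
  -- in the upper half
  have d1 : ∀ x ∈ E1, 0 < cr a x ∧ cr b x < 0 := fun x hx => by
    obtain ⟨a1, a2⟩ := c1 x hx
    rw [cr_anti b x] at a2
    exact ⟨a1, by linarith⟩
  have d2 : ∀ x ∈ E2, 0 < cr b x ∧ cr b x < cr a x := fun x hx => by
    obtain ⟨a1, a2⟩ := c2 x hx
    rw [cr_sub_r, cr_anti b x, cr_anti a x] at a2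
    exact ⟨a1, by linarith⟩
  have d3 : ∀ x ∈ E3, 0 < cr a x ∧ cr a x < cr b x := fun x hx => by
    obtain ⟨a1, a2⟩ := c3 x hx
    rw [cr_neg_r, cr_anti a x] at a2
    rw [cr_sub_l] at a1
    exact ⟨by linarith, by linarith⟩
  have n1 : (volume : Measure (ℝ × ℝ)) E1 ≠ ⊤ := measure_ne_top_of_subset s1 hfinC
  have n2 : (volume : Measure (ℝ × ℝ)) E2 ≠ ⊤ := measure_ne_top_of_subset s2 hfinC
  have n3 : (volume : Measure (ℝ × ℝ)) E3 ≠ ⊤ := measure_ne_top_of_subset s3 hfinC
  set U : Set (ℝ × ℝ) := E1 ∪ E2 ∪ E3 with hU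
  have hUC : U ⊆ C := union_subset (union_subset s1 s2) s3
  have hUm : MeasurableSet U := (m1.union m2).union m3
  have hUv : (volume : Measure (ℝ × ℝ)).real U = (Hm C a + Hm C b + Hm C (b - a)) / 2 := by
    rw [hU, measureReal_union ?_ m3 (measure_ne_top_of_subset (union_subset s1 s2) hfinC) n3,
      measureReal_union ?_ m2 n1 n2, v1, v2, v3]
    · ring
    · rw [Set.disjoint_left]
      intro x hx hx'
      have a1 := d1 x hx
      have a2 := d2 x hx'
      linarith [a1.2, a2.1]
    · rw [Set.disjoint_left]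
      rintro x (hx | hx) hx'
      · have a1 := d1 x hx
        have a2 := d3 x hx'
        linarith [a1.2, a2.1, a2.2]
      · have a1 := d2 x hx
        have a2 := d3 x hx'
        linarith [a1.2, a2.2]
  have hUp : ∀ x ∈ U, 0 < cr a x := by
    rintro x ((hx | hx) | hx)
    · exact (d1 x hx).1
    · exact (d2 x hx).1.trans (d2 x hx).2
    · exact (d3 x hx).1
  set W : Set (ℝ × ℝ) := (fun x => -x) ⁻¹' U with hW
  have hWm : MeasurableSet W := measurable_neg hUm
  have hWC : W ⊆ C := fun x hx => by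
    have := h.sym _ (hUC hx)
    rwa [neg_neg] at this
  have hWv : (volume : Measure (ℝ × ℝ)).real W = (volume : Measure (ℝ × ℝ)).real U := by
    unfold Measure.real
    rw [hW]
    exact congrArg ENNReal.toReal (Measure.measure_preimage_neg volume U)
  have hdis : Disjoint U W := by
    rw [Set.disjoint_left]
    intro x hx hx'
    have a1 := hUp x hx
    have a2 := hUp _ hx'
    rw [cr_neg_r] at a2
    linarith
  have hfinal : (volume : Measure (ℝ × ℝ)).real (U ∪ W) ≤ (volume : Measure (ℝ × ℝ)).real C :=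
    measureReal_mono (union_subset hUC hWC) hfinC
  rw [measureReal_union hdis hWm (measure_ne_top_of_subset hUC hfinC)
    (measure_ne_top_of_subset hWC hfinC), hWv, hUv] at hfinal
  unfold ar
  linarith

end Pool.Agent.UL5.H77
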